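import Pool.Agent.N928.EA.Stm

/-!
# Energy gained by flipping a component (project EA, piece ENE)
-/

set_option autoImplicit false

open Pool.Agent.N928.EA

namespace Pool.Agent.N531.EA.ENE

theorem sg_not (b : Bool) : sg (!b) = - sg b := by cases b <;> simp [sg]

theorem sg_sq (b : Bool) : sg b * sg b = 1 := by cases b <;> simp [sg]

theorem sg_beq (a b : Bool) : sg (a == b) = sg a * sg b := by cases a <;> cases b <;> simp [sg]

theorem sg_abs (b : Bool) : |sg b| = 1 := by cases b <;> simp [sg]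

section general

variable {V : Type} (G : SimpleGraph V) (J : Coupling G)

theorem bond_mk (σ : V → Bool) (x y : V) :
    bond G J σ s(x, y) = Jc G J x y * sg (σ x) * sg (σ y) := rfl

theorem Jc_abs (x y : V) : |Jc G J x y| ≤ 1 := by
  unfold Jc
  split_ifs with h
  · rw [sg_abs]
  · simp

open Classical in
theorem ham_flp [G.LocallyFinite] (A Λ : Finset V) (hA : A ⊆ Λ) (σ : V → Bool) :
    ham G J Λ (flp A σ) - ham G J Λ σ =
      ∑ x ∈ A, ∑ y ∈ (G.neighborFinset x).filter (fun y => y ∉ A),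
        (-2 * (Jc G J x y * sg (σ x) * sg (σ y))) := by
  unfold ham
  rw [← Finset.sum_sub_distrib]
  set B : Finset (Sym2 V) := A.biUnion fun x =>
    ((G.neighborFinset x).filter (fun y => y ∉ A)).image (fun y => s(x, y)) with hB
  have hmem : ∀ x y, x ∈ A → y ∉ A → y ∈ G.neighborFinset x → s(x, y) ∈ B := by
    intro x y hx hy hxy
    rw [hB, Finset.mem_biUnion]
    exact ⟨x, hx, Finset.mem_image.2 ⟨y, Finset.mem_filter.2 ⟨hxy, hy⟩, rfl⟩⟩
  have hsub : B ⊆ edgesOf G Λ := by
    intro e he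
    rw [hB, Finset.mem_biUnion] at he
    obtain ⟨x, hx, he⟩ := he
    rw [Finset.mem_image] at he
    obtain ⟨y, hy, rfl⟩ := he
    unfold edgesOf
    rw [Finset.mem_biUnion]
    exact ⟨x, hA hx, Finset.mem_image.2 ⟨y, (Finset.mem_filter.1 hy).1, rfl⟩⟩
  rw [← Finset.sum_subset hsub]
  · rw [hB, Finset.sum_biUnion]
    · refine Finset.sum_congr rfl fun x hx => ?_
      rw [Finset.sum_image]
      · refine Finset.sum_congr rfl fun y hy => ?_
        have hyA := (Finset.mem_filter.1 hy).2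
        rw [bond_mk, bond_mk]
        simp only [flp, hx, hyA, if_true, if_false]
        rw [sg_not]; ring
      · intro y _ y' _ h
        exact Sym2.congr_right.1 h
    · intro x hx x' hx' hne
      rw [Function.onFun, Finset.disjoint_left]
      intro e he he'
      rw [Finset.mem_image] at he he'
      obtain ⟨y, hy, rfl⟩ := he
      obtain ⟨y', hy', h⟩ := he'
      rw [Sym2.eq_iff] at h
      rcases h with ⟨h, _⟩ | ⟨h, _⟩
      · exact hne h.symm
      · exact (Finset.mem_filter.1 hy).2 (h ▸ hx')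
  · intro e he heB
    unfold edgesOf at he
    rw [Finset.mem_biUnion] at he
    obtain ⟨x, hx, he⟩ := he
    rw [Finset.mem_image] at he
    obtain ⟨y, hy, rfl⟩ := he
    rw [bond_mk, bond_mk]
    by_cases hxA : x ∈ A <;> by_cases hyA : y ∈ A
    · simp only [flp, hxA, hyA, if_true, sg_not]; ring
    · exact absurd (hmem x y hxA hyA hy) heB
    · refine absurd ?_ heB
      rw [Sym2.eq_swap]
      refine hmem y x hyA hxA ?_
      rw [SimpleGraph.mem_neighborFinset] at hy ⊢
      exact hy.symm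
    · simp only [flp, hxA, hyA, if_false]; ring

end general

section product

variable {k : ℕ} {W : Type} {H : SimpleGraph W} (J : Coupling (PG k H))

theorem gau_child (i : Fin k) (t : List (Fin k)) (h : W) :
    Jc (PG k H) J (t, h) (i :: t, h) * sg (gau J t h) * sg (gau J (i :: t) h) = 1 := by
  have h1 : gau J (i :: t) h = (J ⟨s((t, h), (i :: t, h)), adj_tree H i t h⟩ == gau J t h) := rfl
  rw [h1, sg_beq]
  unfold Jc
  rw [dif_pos (adj_tree H i t h)]
  generalize J ⟨s((t, h), (i :: t, h)), adj_tree H i t h⟩ = a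
  have e1 := sg_sq a
  have e2 := sg_sq (gau J t h)
  calc sg a * sg (gau J t h) * (sg a * sg (gau J t h))
      = (sg a * sg a) * (sg (gau J t h) * sg (gau J t h)) := by ring
    _ = 1 := by rw [e1, e2]; ring

theorem gau_layer (t : List (Fin k)) {h h' : W} (a : H.Adj h h') :
    Jc (PG k H) J (t, h) (t, h') * sg (gau J t h) * sg (gau J t h') =
      yv H (YY J) t h h' := by
  unfold yv
  rw [dif_pos a]
  have h1 : YY J (t, ⟨s(h, h'), a⟩) =
      (J ⟨s((t, h), (t, h')), adj_layer t a⟩ == (gau J t h == gau J t h')) := rfl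
  rw [h1, sg_beq, sg_beq]
  unfold Jc
  rw [dif_pos (adj_layer t a)]
  ring

/-- the value of a boundary term when both gauge spins are known -/
theorem term_eq (σ : PV k W → Bool) (ε : Bool) (x y : PV k W)
    (hx : (σ x == gau J x.1 x.2) = !ε) (hy : (σ y == gau J y.1 y.2) = ε) :
    -2 * (Jc (PG k H) J x y * sg (σ x) * sg (σ y)) =
      2 * (Jc (PG k H) J x y * sg (gau J x.1 x.2) * sg (gau J y.1 y.2)) := by
  have e1 : sg (σ x) * sg (gau J x.1 x.2) = - sg ε := by rw [← sg_beq, hx, sg_not]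
  have e2 : sg (σ y) * sg (gau J y.1 y.2) = sg ε := by rw [← sg_beq, hy]
  have s1 := sg_sq (gau J x.1 x.2)
  have s2 := sg_sq (gau J y.1 y.2)
  have s3 := sg_sq ε
  have f1 : sg (σ x) = - (sg ε * sg (gau J x.1 x.2)) := by
    calc sg (σ x) = sg (σ x) * (sg (gau J x.1 x.2) * sg (gau J x.1 x.2)) := by rw [s1]; ring
      _ = (sg (σ x) * sg (gau J x.1 x.2)) * sg (gau J x.1 x.2) := by ring
      _ = _ := by rw [e1]; ring
  have f2 : sg (σ y) = sg ε * sg (gau J y.1 y.2) := by
    calc sg (σ y) = sg (σ y) * (sg (gau J y.1 y.2) * sg (gau J y.1 y.2)) := by rw [s2]; ring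
      _ = (sg (σ y) * sg (gau J y.1 y.2)) * sg (gau J y.1 y.2) := by ring
      _ = _ := by rw [e2]
  rw [f1, f2]
  calc -2 * (Jc (PG k H) J x y * -(sg ε * sg (gau J x.1 x.2)) * (sg ε * sg (gau J y.1 y.2)))
      = 2 * (Jc (PG k H) J x y * sg (gau J x.1 x.2) * sg (gau J y.1 y.2)) * (sg ε * sg ε) := by
        ring
    _ = _ := by rw [s3]; ring

theorem term_ge (σ : PV k W → Bool) (x y : PV k W) :
    -2 ≤ -2 * (Jc (PG k H) J x y * sg (σ x) * sg (σ y)) := by
  have h1 : |Jc (PG k H) J x y * sg (σ x) * sg (σ y)| ≤ 1 := by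
    rw [abs_mul, abs_mul, sg_abs, sg_abs, mul_one, mul_one]
    exact Jc_abs _ _ _ _
  have := (abs_le.1 h1).2
  linarith

open Classical in
/-- the bound at one vertex -/
theorem vertex [H.LocallyFinite] (w : List (Fin k)) (A : Finset (PV k W)) (σ : PV k W → Bool)
    (ε : Bool) (hw : ∀ x ∈ A, w <:+ x.1)
    (hin : ∀ x ∈ A, (σ x == gau J x.1 x.2) = !ε)
    (hout : ∀ x ∈ A, ∀ y, y ∉ A → (PG k H).Adj x y → w <:+ y.1 → (σ y == gau J y.1 y.2) = ε)
    (x : PV k W) (hx : x ∈ A) :
    2 * (((Finset.univ : Finset (Fin k)).filter (fun i => (i :: x.1, x.2) ∉ A)).card : ℝ)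
      - 2 * (if x.1 = w then 1 else 0)
      + 2 * ∑ y ∈ (H.neighborFinset x.2).filter (fun y => (x.1, y) ∉ A),
          yv H (YY J) x.1 x.2 y ≤
      ∑ y ∈ ((PG k H).neighborFinset x).filter (fun y => y ∉ A),
        (-2 * (Jc (PG k H) J x y * sg (σ x) * sg (σ y))) := by
  set f : PV k W → ℝ := fun y => -2 * (Jc (PG k H) J x y * sg (σ x) * sg (σ y)) with hf
  set S := ((PG k H).neighborFinset x).filter (fun y => y ∉ A) with hS
  have memS : ∀ y, y ∈ S ↔ (PG k H).Adj x y ∧ y ∉ A := by
    intro y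
    rw [hS, Finset.mem_filter, SimpleGraph.mem_neighborFinset]
  -- children
  set C : Finset (PV k W) := ((Finset.univ : Finset (Fin k)).filter
    (fun i => (i :: x.1, x.2) ∉ A)).image (fun i => ((i :: x.1, x.2) : PV k W)) with hC
  set L : Finset (PV k W) := ((H.neighborFinset x.2).filter
    (fun y => (x.1, y) ∉ A)).image (fun y => ((x.1, y) : PV k W)) with hL
  have hCS : C ⊆ S := by
    intro y hy
    rw [hC, Finset.mem_image] at hy
    obtain ⟨i, hi, rfl⟩ := hy
    rw [memS]
    exact ⟨adj_tree H i x.1 x.2, (Finset.mem_filter.1 hi).2⟩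
  have hLS : L ⊆ S := by
    intro y hy
    rw [hL, Finset.mem_image] at hy
    obtain ⟨h', hh, rfl⟩ := hy
    rw [Finset.mem_filter, SimpleGraph.mem_neighborFinset] at hh
    rw [memS]
    exact ⟨adj_layer x.1 hh.1, hh.2⟩
  have hCL : Disjoint C L := by
    rw [Finset.disjoint_left]
    intro y hy hy'
    rw [hC, Finset.mem_image] at hy
    rw [hL, Finset.mem_image] at hy'
    obtain ⟨i, _, rfl⟩ := hy
    obtain ⟨h', _, h⟩ := hy'
    have h1 := congrArg (fun z : PV k W => z.1.length) h
    simp at h1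
  have hCsum : ∑ y ∈ C, f y =
      2 * (((Finset.univ : Finset (Fin k)).filter (fun i => (i :: x.1, x.2) ∉ A)).card : ℝ) := by
    rw [hC, Finset.sum_image]
    · rw [Finset.sum_congr rfl (g := fun _ => (2:ℝ)), Finset.sum_const, nsmul_eq_mul, mul_comm]
      intro i hi
      have hiA := (Finset.mem_filter.1 hi).2
      have hy : (σ (i :: x.1, x.2) == gau J (i :: x.1) x.2) = ε :=
        hout x hx _ hiA (adj_tree H i x.1 x.2) ((hw x hx).trans (List.suffix_cons _ _))
      show -2 * (Jc (PG k H) J x (i :: x.1, x.2) * sg (σ x) * sg (σ (i :: x.1, x.2))) = 2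
      rw [term_eq J σ ε x (i :: x.1, x.2) (hin x hx) hy]
      have := gau_child J i x.1 x.2
      show 2 * (Jc (PG k H) J (x.1, x.2) (i :: x.1, x.2) * sg (gau J x.1 x.2) *
        sg (gau J (i :: x.1) x.2)) = 2
      rw [this]; ring
    · intro i _ j _ h
      have h1 := congrArg Prod.fst h
      simpa using h1
  have hLsum : ∑ y ∈ L, f y = 2 * ∑ y ∈ (H.neighborFinset x.2).filter (fun y => (x.1, y) ∉ A),
          yv H (YY J) x.1 x.2 y := by
    rw [hL, Finset.sum_image]
    · rw [Finset.mul_sum]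
      refine Finset.sum_congr rfl fun h' hh => ?_
      rw [Finset.mem_filter, SimpleGraph.mem_neighborFinset] at hh
      have hy : (σ (x.1, h') == gau J x.1 h') = ε :=
        hout x hx _ hh.2 (adj_layer x.1 hh.1) (hw x hx)
      show -2 * (Jc (PG k H) J x (x.1, h') * sg (σ x) * sg (σ (x.1, h'))) = _
      rw [term_eq J σ ε x (x.1, h') (hin x hx) hy, ← gau_layer J x.1 hh.1]
    · intro i _ j _ h
      exact congrArg Prod.snd h
  -- the rest: the parent
  have hrest : - 2 * (if x.1 = w then 1 else 0) ≤ ∑ y ∈ S \ (C ∪ L), f y := by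
    have hpar : ∀ y ∈ S \ (C ∪ L), ∃ i, x.1 = i :: y.1 ∧ y.2 = x.2 := by
      intro y hy
      rw [Finset.mem_sdiff, Finset.mem_union, memS] at hy
      obtain ⟨⟨hadj, hyA⟩, hn⟩ := hy
      rw [SimpleGraph.boxProd_adj] at hadj
      rcases hadj with ⟨h1 | h1, h2⟩ | ⟨h1, h2⟩
      · obtain ⟨i, hi⟩ := h1
        exfalso
        apply hn
        left
        rw [hC, Finset.mem_image]
        have hy' : (i :: x.1, x.2) = y := Prod.ext hi.symm h2
        exact ⟨i, Finset.mem_filter.2 ⟨Finset.mem_univ _, by rw [hy']; exact hyA⟩, hy'⟩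
      · obtain ⟨i, hi⟩ := h1
        exact ⟨i, hi, h2.symm⟩
      · exfalso
        apply hn
        right
        rw [hL, Finset.mem_image]
        have hy' : (x.1, y.2) = y := Prod.ext h2 rfl
        exact ⟨y.2, Finset.mem_filter.2 ⟨(SimpleGraph.mem_neighborFinset _ _ _).2 h1,
          by rw [hy']; exact hyA⟩, hy'⟩
    by_cases hxw : x.1 = w
    · rw [if_pos hxw]
      have hcard : (S \ (C ∪ L)).card ≤ 1 := by
        rw [Finset.card_le_one]
        intro y hy y' hy'
        obtain ⟨i, h1, h2⟩ := hpar y hy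
        obtain ⟨i', h1', h2'⟩ := hpar y' hy'
        rw [h1] at h1'
        have := (List.cons.inj h1').2
        exact Prod.ext this (h2.trans h2'.symm)
      have h1 : ((S \ (C ∪ L)).card : ℝ) ≤ 1 := by exact_mod_cast hcard
      have h2 : (S \ (C ∪ L)).card • (-2 : ℝ) ≤ ∑ y ∈ S \ (C ∪ L), f y :=
        Finset.card_nsmul_le_sum _ _ _ fun y _ => term_ge J σ x y
      rw [nsmul_eq_mul] at h2
      linarith
    · rw [if_neg hxw, mul_zero]
      refine Finset.sum_nonneg fun y hy => ?_
      obtain ⟨i, h1, h2⟩ := hpar y hy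
      have hyS := (memS y).1 (Finset.mem_sdiff.1 hy).1
      have hwy : w <:+ y.1 := by
        have h3 := hw x hx
        rw [h1, List.suffix_cons_iff] at h3
        rcases h3 with h3 | h3
        · exact absurd (h1.trans h3.symm) hxw
        · exact h3
      have hy' := hout x hx y hyS.2 hyS.1 hwy
      show 0 ≤ -2 * (Jc (PG k H) J x y * sg (σ x) * sg (σ y))
      rw [term_eq J σ ε x y (hin x hx) hy']
      have hxe : x = (i :: y.1, y.2) := Prod.ext h1 h2.symm
      have h4 := gau_child J i y.1 y.2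
      rw [Jc_comm] at h4
      have h5 : Jc (PG k H) J x y * sg (gau J x.1 x.2) * sg (gau J y.1 y.2) = 1 := by
        rw [hxe]
        rw [← h4]
        show Jc (PG k H) J (i :: y.1, y.2) (y.1, y.2) * sg (gau J (i :: y.1) y.2) *
          sg (gau J y.1 y.2) = _
        ring
      rw [h5]; norm_num
  have hsplit : ∑ y ∈ S, f y = ∑ y ∈ C, f y + ∑ y ∈ L, f y + ∑ y ∈ S \ (C ∪ L), f y := by
    rw [← Finset.sum_union hCL, add_comm, Finset.sum_sdiff (Finset.union_subset hCS hLS)]
  rw [hsplit, hCsum, hLsum]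
  linarith

open Classical in
/-- the number of the pairs vertex-child inside `A` -/
theorem pairs (w : List (Fin k)) (A : Finset (PV k W)) (hw : ∀ x ∈ A, w <:+ x.1) :
    ∑ x ∈ A, ((Finset.univ : Finset (Fin k)).filter (fun i => (i :: x.1, x.2) ∈ A)).card +
      (A.filter (fun x => x.1 = w)).card ≤ A.card := by
  have h1 : ∑ x ∈ A, ((Finset.univ : Finset (Fin k)).filter
      (fun i => (i :: x.1, x.2) ∈ A)).card =
      (A.sigma fun x => (Finset.univ : Finset (Fin k)).filter
        (fun i => (i :: x.1, x.2) ∈ A)).card := by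
    rw [Finset.card_sigma]
  have h2 : (A.sigma fun x => (Finset.univ : Finset (Fin k)).filter
        (fun i => (i :: x.1, x.2) ∈ A)).card ≤ (A.filter (fun x => ¬ x.1 = w)).card := by
    refine Finset.card_le_card_of_injOn
      (fun z : (Σ _ : PV k W, Fin k) => ((z.2 :: z.1.1, z.1.2) : PV k W)) ?_ ?_
    · intro z hz
      rw [Finset.mem_coe, Finset.mem_sigma, Finset.mem_filter] at hz
      rw [Finset.mem_coe, Finset.mem_filter]
      refine ⟨hz.2.2, fun h => ?_⟩
      have h3 := (hw z.1 hz.1).length_le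
      have h4 := congrArg List.length h
      simp only [List.length_cons] at h4
      omega
    · rintro ⟨⟨t, h⟩, i⟩ _ ⟨⟨t', h'⟩, i'⟩ _ he
      simp only [Prod.mk.injEq, List.cons.injEq] at he
      obtain ⟨⟨rfl, rfl⟩, rfl⟩ := he
      rfl
  have h3 := Finset.card_filter_add_card_filter_not (s := A) (fun x : PV k W => x.1 = w)
  omega

end product

/-- **Energy gained by flipping a component.** -/
theorem t_ENE : St_ENE := by
  classical
  intro k W H _ J w A Λ σ ε hA hw hin hout
  have h1 : ham (PG k H) J Λ (flp A σ) - ham (PG k H) J Λ σ =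
      ∑ x ∈ A, ∑ y ∈ ((PG k H).neighborFinset x).filter (fun y => y ∉ A),
        (-2 * (Jc (PG k H) J x y * sg (σ x) * sg (σ y))) := by
    rw [ham_flp (PG k H) J A Λ hA σ]
    refine Finset.sum_congr rfl fun x _ => Finset.sum_congr ?_ fun _ _ => rfl
    congr 1
  have h2 : ∑ x ∈ A, (2 * (((Finset.univ : Finset (Fin k)).filter
      (fun i => (i :: x.1, x.2) ∉ A)).card : ℝ)
      - 2 * (if x.1 = w then 1 else 0)
      + 2 * ∑ y ∈ (H.neighborFinset x.2).filter (fun y => (x.1, y) ∉ A),
          yv H (YY J) x.1 x.2 y) ≤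
      ∑ x ∈ A, ∑ y ∈ ((PG k H).neighborFinset x).filter (fun y => y ∉ A),
        (-2 * (Jc (PG k H) J x y * sg (σ x) * sg (σ y))) :=
    Finset.sum_le_sum fun x hx => vertex J w A σ ε hw hin hout x hx
  have h3 := pairs w A hw
  have h4 : ∀ x : PV k W, (((Finset.univ : Finset (Fin k)).filter
      (fun i => (i :: x.1, x.2) ∉ A)).card : ℝ) =
      k - ((Finset.univ : Finset (Fin k)).filter (fun i => (i :: x.1, x.2) ∈ A)).card := by
    intro x
    have := Finset.card_filter_add_card_filter_not (s := (Finset.univ : Finset (Fin k)))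
      (fun i => (i :: x.1, x.2) ∈ A)
    rw [Finset.card_univ, Fintype.card_fin] at this
    have h : (((Finset.univ : Finset (Fin k)).filter (fun i => (i :: x.1, x.2) ∈ A)).card : ℝ) +
      (((Finset.univ : Finset (Fin k)).filter (fun i => ¬ (i :: x.1, x.2) ∈ A)).card : ℝ) = k := by
      exact_mod_cast this
    linarith
  rw [Finset.sum_add_distrib, Finset.sum_sub_distrib, ← Finset.mul_sum, ← Finset.mul_sum,
    ← Finset.mul_sum, Finset.sum_congr rfl (fun x _ => h4 x), Finset.sum_sub_distrib,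
    Finset.sum_const, nsmul_eq_mul] at h2
  have h5 : (∑ x ∈ A, (if x.1 = w then (1:ℝ) else 0)) = (A.filter (fun x => x.1 = w)).card := by
    rw [Finset.sum_ite, Finset.sum_const_zero, add_zero, Finset.sum_const, nsmul_eq_mul, mul_one]
  rw [h5] at h2
  have h6 : (∑ x ∈ A, (((Finset.univ : Finset (Fin k)).filter
      (fun i => (i :: x.1, x.2) ∈ A)).card : ℝ)) + ((A.filter (fun x => x.1 = w)).card : ℝ) ≤
      A.card := by exact_mod_cast h3
  have h7 : XA H (YY J) A = ∑ x ∈ A, ∑ y ∈ (H.neighborFinset x.2).filter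
      (fun y => (x.1, y) ∉ A), yv H (YY J) x.1 x.2 y := by
    unfold XA
    refine Finset.sum_congr rfl fun x _ => Finset.sum_congr ?_ fun _ _ => rfl
    congr 1
  rw [← h7] at h2
  have h8 : ham (PG k H) J Λ (flp A σ) = ham (PG k H) J Λ σ +
      ∑ x ∈ A, ∑ y ∈ ((PG k H).neighborFinset x).filter (fun y => y ∉ A),
        (-2 * (Jc (PG k H) J x y * sg (σ x) * sg (σ y))) := by rw [← h1]; ring
  rw [h8]
  have h9 : 2 * (((k : ℝ) - 1) * A.card + XA H (YY J) A) ≤
      ∑ x ∈ A, ∑ y ∈ ((PG k H).neighborFinset x).filter (fun y => y ∉ A),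
        (-2 * (Jc (PG k H) J x y * sg (σ x) * sg (σ y))) := by
    refine le_trans ?_ h2
    nlinarith
  linarith

end Pool.Agent.N531.EA.ENE
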